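import Pool.Agent.Work.MP_65e34f_helper28.Asm

/-!
# MP_65e34f_al: the gap law for all `q ≥ 4` and the good pairs
-/

namespace Pool.FG.h38

open Matrix Pool.FG Pool.FG.helper28

variable {K : Type} [Field K]

theorem nontrivial_PSL : Nontrivial (PSL K) := by
  by_contra h
  rw [not_nontrivial_iff_subsingleton] at h
  let x : SL K := ⟨!![1, 1; 0, 1], by simp [Matrix.det_fin_two]⟩
  let y : SL K := ⟨!![1, 0; 1, 1], by simp [Matrix.det_fin_two]⟩
  have hx : x ∈ Subgroup.center (SL K) := by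
    rw [← QuotientGroup.eq_one_iff]
    exact Subsingleton.elim _ _
  have hxy : y * x = x * y := Subgroup.mem_center_iff.1 hx y
  have h1 : (y * x : SL K).1 0 0 = (x * y : SL K).1 0 0 := by rw [hxy]
  have h2 : (y * x : SL K).1 0 0 = 1 := by
    have h : (y * x : SL K).1 = y.1 * x.1 := rfl
    rw [h, Matrix.mul_apply, Fin.sum_univ_two]
    show (1 : K) * 1 + 0 * 0 = 1
    ring
  have h3 : (x * y : SL K).1 0 0 = 1 + 1 := by
    have h : (x * y : SL K).1 = x.1 * y.1 := rfl
    rw [h, Matrix.mul_apply, Fin.sum_univ_two]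
    show (1 : K) * 1 + 1 * 1 = 1 + 1
    ring
  rw [h2, h3] at h1
  exact one_ne_zero (left_eq_add.1 h1)

theorem card_PSL_le [Finite K] : Nat.card (PSL K) ≤ Nat.card K ^ 4 := by
  have h1 : Nat.card (PSL K) ≤ Nat.card (SL K) :=
    Nat.card_le_card_of_surjective (QuotientGroup.mk' (Subgroup.center (SL K)))
      (QuotientGroup.mk'_surjective _)
  have h2 : Nat.card (SL K) ≤ Nat.card (Fin 2 → Fin 2 → K) :=
    Nat.card_le_card_of_injective (fun a : SL K => fun i j => a.1 i j) (by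
      intro a b h
      apply Subtype.ext
      ext i j
      exact congrFun (congrFun h i) j)
  have h3 : Nat.card (Fin 2 → Fin 2 → K) = Nat.card K ^ 4 := by
    rw [Nat.card_fun, Nat.card_fun, Nat.card_eq_fintype_card (α := Fin 2), Fintype.card_fin, ← pow_mul]
  omega

theorem card_hom_le {α H : Type} [Finite α] [Group H] [Finite H] (rels : Set (FreeGroup α)) :
    Finite (PresentedGroup rels →* H) ∧
      Nat.card (PresentedGroup rels →* H) ≤ Nat.card H ^ Nat.card α := by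
  have hinj : Function.Injective
      (fun φ : PresentedGroup rels →* H => fun a : α => φ (PresentedGroup.of a)) := by
    intro φ ψ h
    apply PresentedGroup.ext
    intro a
    exact congrFun h a
  refine ⟨Finite.of_injective _ hinj, ?_⟩
  rw [← Nat.card_fun]
  exact Nat.card_le_card_of_injective _ hinj

theorem PP_bounds {Γ H : Type} [Group Γ] [Group H] [Nontrivial H] (hfin : Finite (Γ →* H)) :
    0 ≤ 1 - PP Γ H ∧ 1 - PP Γ H ≤ 1 ∧ 1 ≤ (Nat.card (Γ →* H) : ℝ) * (1 - PP Γ H) := by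
  have hpos : 0 < Nat.card (Γ →* H) := Nat.card_pos
  have hN : (0 : ℝ) < (Nat.card (Γ →* H) : ℝ) := by exact_mod_cast hpos
  have hlt : Nat.card {φ : Γ →* H // Function.Surjective φ} < Nat.card (Γ →* H) := by
    have h1 : Nat.card {φ : Γ →* H // Function.Surjective φ} =
        Set.ncard {φ : Γ →* H | Function.Surjective φ} := rfl
    rw [h1, ← Set.ncard_univ]
    apply Set.ncard_lt_ncard _ (Set.toFinite _)
    refine (Set.ssubset_univ_iff).2 ?_
    intro h
    have h2 : (1 : Γ →* H) ∈ {φ : Γ →* H | Function.Surjective φ} := by rw [h]; trivial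
    obtain ⟨z, hz⟩ := exists_ne (1 : H)
    obtain ⟨w, hw⟩ := (show Function.Surjective (1 : Γ →* H) from h2) z
    exact hz hw.symm
  have hS : (Nat.card {φ : Γ →* H // Function.Surjective φ} : ℝ) + 1 ≤ (Nat.card (Γ →* H) : ℝ) := by
    exact_mod_cast hlt
  have hS0 : (0 : ℝ) ≤ (Nat.card {φ : Γ →* H // Function.Surjective φ} : ℝ) := by positivity
  have hmul : (Nat.card (Γ →* H) : ℝ) * (1 - PP Γ H) =
      (Nat.card (Γ →* H) : ℝ) - (Nat.card {φ : Γ →* H // Function.Surjective φ} : ℝ) := by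
    unfold PP
    field_simp
  refine ⟨?_, ?_, by rw [hmul]; linarith⟩
  · have h3 : 0 ≤ (Nat.card (Γ →* H) : ℝ) * (1 - PP Γ H) := by rw [hmul]; linarith
    by_contra h4
    push Not at h4
    nlinarith
  · have h5 : 0 ≤ PP Γ H := by unfold PP; positivity
    linarith

theorem finO (g d s : ℕ) : Finite (GenO g d s) := by
  let f : GenO g d s → (Fin g ⊕ Fin g) ⊕ (Fin d ⊕ Fin s) := fun u => match u with
    | GenO.a i => Sum.inl (Sum.inl i)
    | GenO.b i => Sum.inl (Sum.inr i)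
    | GenO.x i => Sum.inr (Sum.inl i)
    | GenO.y j => Sum.inr (Sum.inr j)
  refine Finite.of_injective f ?_
  intro u v h
  cases u <;> cases v <;> simp_all [f]

theorem finN (g d s : ℕ) : Finite (GenN g d s) := by
  let f : GenN g d s → Fin g ⊕ (Fin d ⊕ Fin s) := fun u => match u with
    | GenN.a i => Sum.inl i
    | GenN.x i => Sum.inr (Sum.inl i)
    | GenN.y j => Sum.inr (Sum.inr j)
  refine Finite.of_injective f ?_
  intro u v h
  cases u <;> cases v <;> simp_all [f]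

/-- from the gap for large fields to the gap for all fields -/
theorem allq {α : Type} [Finite α] (rels : Set (FreeGroup α)) (P : ∀ (K : Type) [Field K], Prop)
    (C N : ℕ) (h : ∀ (K : Type) [Field K] [Finite K], N ≤ Nat.card K →
      (P K → (1 - PP (PresentedGroup rels) (PSL K)) ^ 4 * (Nat.card K : ℝ) ≤ C) ∧
      (¬ P K → 1 ≤ (C : ℝ) * (1 - PP (PresentedGroup rels) (PSL K)))) :
    ∃ C : ℝ, 1 ≤ C ∧ ∀ (K : Type) [Field K] [Finite K],
      (P K → 1 - C * (Nat.card K : ℝ) ^ (-(1 / 4) : ℝ) ≤ PP (PresentedGroup rels) (PSL K)) ∧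
      (¬ P K → PP (PresentedGroup rels) (PSL K) ≤ 1 - 1 / C) := by
  set D : ℝ := (C : ℝ) + N + ((N : ℝ) ^ 4) ^ Nat.card α + 1 with hD
  have hC0 : (0 : ℝ) ≤ C := by positivity
  have hN0 : (0 : ℝ) ≤ N := by positivity
  have hE0 : (0 : ℝ) ≤ ((N : ℝ) ^ 4) ^ Nat.card α := by positivity
  have hD1 : 1 ≤ D := by rw [hD]; linarith
  refine ⟨D, hD1, fun K _ _ => ?_⟩
  have := nontrivial_PSL (K := K)
  have : Finite (SL K) := inferInstance
  have : Finite (PSL K) := Finite.of_surjective _ (QuotientGroup.mk'_surjective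
    (Subgroup.center (SL K)))
  obtain ⟨hfin, hcard⟩ := card_hom_le (H := PSL K) rels
  obtain ⟨hb0, hb1, hb2⟩ := PP_bounds (Γ := PresentedGroup rels) (H := PSL K) hfin
  have hq : (0 : ℝ) < (Nat.card K : ℝ) := by exact_mod_cast Nat.card_pos
  constructor
  · intro hc
    have h4 : (1 - PP (PresentedGroup rels) (PSL K)) ^ 4 * (Nat.card K : ℝ) ≤ D := by
      rcases Nat.lt_or_ge (Nat.card K) N with hlt | hge
      · have h5 : (1 - PP (PresentedGroup rels) (PSL K)) ^ 4 ≤ 1 := pow_le_one₀ hb0 hb1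
        have h6 : (Nat.card K : ℝ) ≤ N := by exact_mod_cast hlt.le
        have h7 : (1 - PP (PresentedGroup rels) (PSL K)) ^ 4 * (Nat.card K : ℝ) ≤
            1 * (Nat.card K : ℝ) := mul_le_mul_of_nonneg_right h5 hq.le
        rw [hD]; linarith
      · have h5 := (h K hge).1 hc
        rw [hD]; linarith
    by_contra hcon
    push Not at hcon
    have h8 : D * (Nat.card K : ℝ) ^ (-(1 / 4) : ℝ) < 1 - PP (PresentedGroup rels) (PSL K) := by
      linarith
    have hr0 : 0 ≤ D * (Nat.card K : ℝ) ^ (-(1 / 4) : ℝ) := by positivity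
    have h9 : (D * (Nat.card K : ℝ) ^ (-(1 / 4) : ℝ)) ^ 4 <
        (1 - PP (PresentedGroup rels) (PSL K)) ^ 4 := pow_lt_pow_left₀ h8 hr0 (by norm_num)
    have h10 : ((Nat.card K : ℝ) ^ (-(1 / 4) : ℝ)) ^ 4 * (Nat.card K : ℝ) = 1 := by
      rw [← Real.rpow_natCast, ← Real.rpow_mul hq.le]
      have : (-(1 / 4) : ℝ) * ((4 : ℕ) : ℝ) = -1 := by push_cast; norm_num
      rw [this, Real.rpow_neg_one, inv_mul_cancel₀ hq.ne']
    have h11 : D ^ 4 < D := by
      calc D ^ 4 = D ^ 4 * (((Nat.card K : ℝ) ^ (-(1 / 4) : ℝ)) ^ 4 * (Nat.card K : ℝ)) := by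
            rw [h10, mul_one]
        _ = (D * (Nat.card K : ℝ) ^ (-(1 / 4) : ℝ)) ^ 4 * (Nat.card K : ℝ) := by ring
        _ < (1 - PP (PresentedGroup rels) (PSL K)) ^ 4 * (Nat.card K : ℝ) :=
            mul_lt_mul_of_pos_right h9 hq
        _ ≤ D := h4
    have h12 : D ≤ D ^ 4 := by
      calc D = D ^ 1 := (pow_one D).symm
        _ ≤ D ^ 4 := pow_le_pow_right₀ hD1 (by norm_num)
    linarith
  · intro hc
    have h4 : 1 ≤ D * (1 - PP (PresentedGroup rels) (PSL K)) := by
      rcases Nat.lt_or_ge (Nat.card K) N with hlt | hge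
      · have h6 : (Nat.card (PresentedGroup rels →* PSL K) : ℝ) ≤ ((N : ℝ) ^ 4) ^ Nat.card α := by
          have h7 : Nat.card (PresentedGroup rels →* PSL K) ≤ (N ^ 4) ^ Nat.card α :=
            hcard.trans (Nat.pow_le_pow_left (card_PSL_le.trans
              (Nat.pow_le_pow_left hlt.le 4)) _)
          exact_mod_cast h7
        have h8 : (Nat.card (PresentedGroup rels →* PSL K) : ℝ) *
            (1 - PP (PresentedGroup rels) (PSL K)) ≤
            D * (1 - PP (PresentedGroup rels) (PSL K)) :=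
          mul_le_mul_of_nonneg_right (by rw [hD]; linarith) hb0
        linarith
      · have h5 := (h K hge).2 hc
        have h8 : (C : ℝ) * (1 - PP (PresentedGroup rels) (PSL K)) ≤
            D * (1 - PP (PresentedGroup rels) (PSL K)) :=
          mul_le_mul_of_nonneg_right (by rw [hD]; linarith) hb0
        linarith
    have hDp : 0 < D := by linarith
    have h9 : 1 / D ≤ 1 - PP (PresentedGroup rels) (PSL K) := by
      rw [div_le_iff₀ hDp]
      linarith
    linarith

/-- the gap law -/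
theorem gapO (g d s : ℕ) (m : Fin d → ℕ) (hm : ∀ i, 2 ≤ m i) (hg : g ≤ 1) :
    ∃ C : ℝ, 1 ≤ C ∧ ∀ (K : Type) [Field K] [Finite K],
      (Crit K (wdO g s) (List.ofFn m) →
        1 - C * (Nat.card K : ℝ) ^ (-(1 / 4) : ℝ) ≤ PP (FuchsO g d s m) (PSL K)) ∧
      (¬ Crit K (wdO g s) (List.ofFn m) → PP (FuchsO g d s m) (PSL K) ≤ 1 - 1 / C) := by
  obtain ⟨C, N, h⟩ := (gap asm.1 asm.2 Pool.FG.helper18.stmt_RDO Pool.FG.helper18.stmt_RDN).1
    g d s m hm hg
  have := finO g d s
  exact allq (relO g d s m) (fun K _ => Crit K (wdO g s) (List.ofFn m)) C N h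

theorem gapN (g d s : ℕ) (m : Fin d → ℕ) (hm : ∀ i, 2 ≤ m i) (hg1 : 1 ≤ g) (hg2 : g ≤ 2) :
    ∃ C : ℝ, 1 ≤ C ∧ ∀ (K : Type) [Field K] [Finite K],
      (Crit K (wdN g s) (List.ofFn m) →
        1 - C * (Nat.card K : ℝ) ^ (-(1 / 4) : ℝ) ≤ PP (FuchsN g d s m) (PSL K)) ∧
      (¬ Crit K (wdN g s) (List.ofFn m) → PP (FuchsN g d s m) (PSL K) ≤ 1 - 1 / C) := by
  obtain ⟨C, N, h⟩ := (gap asm.1 asm.2 Pool.FG.helper18.stmt_RDO Pool.FG.helper18.stmt_RDN).2
    g d s m hm hg1 hg2
  have := finN g d s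
  exact allq (relN g d s m) (fun K _ => Crit K (wdN g s) (List.ofFn m)) C N h

end Pool.FG.h38
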